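import Mathlib

set_option autoImplicit false

/-!
# Graphs of chromatic number `ℵ₁` with almost linear bipartite deficiency

The vertices are the sequences `x : ℕ → ℕ → Nd` of blocks of well-founded objects; every object
remembers one vertex. An arc of label `k` from `x` to `y` exists if the blocks `0, …, k` of `x` and
`y` are interleaved in a fixed way (block `j` with shift `s j`), and the first object of the block
`k + 1` of `y` remembers `x`.
-/

namespace Pool.Agent.Y581.BD

open Filter

/-- Well-founded objects: an object lies above countably many objects and remembers a vertex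
`ℕ → ℕ → Nd`. -/
inductive Nd : Type
  | leaf : Nd
  | mk : (ℕ → Nd) → (ℕ → ℕ → Nd) → Nd

instance : Inhabited Nd := ⟨Nd.leaf⟩

/-- the type of vertices -/
abbrev Vx : Type := ℕ → ℕ → Nd

/-- the vertex which an object remembers -/
def mem : Nd → Vx
  | Nd.leaf => fun _ _ => Nd.leaf
  | Nd.mk _ m => m

/-- immediate predecessors -/
def Child (u w : Nd) : Prop := ∃ β m n, w = Nd.mk β m ∧ u = β n

/-- the strict order of the objects -/
def Lt : Nd → Nd → Prop := Relation.TransGen Child

theorem child_wf : WellFounded Child := by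
  constructor
  intro b
  induction b with
  | leaf =>
    constructor
    rintro a ⟨β, m, n, h, _⟩
    cases h
  | mk β m ih _ =>
    constructor
    rintro a ⟨β', m', n, h, rfl⟩
    cases h
    exact ih n

theorem lt_wf : WellFounded Lt := child_wf.transGen

theorem lt_irrefl (u : Nd) : ¬ Lt u u := lt_wf.irrefl.irrefl u

theorem lt_trans {u v w : Nd} (h1 : Lt u v) (h2 : Lt v w) : Lt u w := Relation.TransGen.trans h1 h2

/-! ### The filter of almost all objects -/

/-- a property holds for almost all objects if it holds for all objects which lie above countably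
many given objects -/
def F : Filter Nd where
  sets := {s | ∃ β : ℕ → Nd, ∀ w, (∀ n, Lt (β n) w) → w ∈ s}
  univ_sets := ⟨fun _ => Nd.leaf, fun _ _ => Set.mem_univ _⟩
  sets_of_superset := by
    rintro s t ⟨β, h⟩ hst
    exact ⟨β, fun w hw => hst (h w hw)⟩
  inter_sets := by
    rintro s t ⟨β, h⟩ ⟨β', h'⟩
    refine ⟨fun n => if n % 2 = 0 then β (n / 2) else β' (n / 2), fun w hw => ⟨?_, ?_⟩⟩
    · apply h
      intro n
      have := hw (2 * n)
      simpa using this
    · apply h'
      intro n
      have := hw (2 * n + 1)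
      have e1 : (2 * n + 1) % 2 = 1 := by omega
      have e2 : (2 * n + 1) / 2 = n := by omega
      simpa [e1, e2] using this

theorem ev_iff {P : Nd → Prop} :
    (∀ᶠ w in F, P w) ↔ ∃ β : ℕ → Nd, ∀ w, (∀ n, Lt (β n) w) → P w := Iff.rfl

theorem ev_countable {P : ℕ → Nd → Prop} (h : ∀ i, ∀ᶠ w in F, P i w) : ∀ᶠ w in F, ∀ i, P i w := by
  choose β hβ using fun i => ev_iff.1 (h i)
  refine ev_iff.2 ⟨fun n => β n.unpair.1 n.unpair.2, fun w hw i => ?_⟩
  apply hβ
  intro n
  have := hw (Nat.pair i n)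
  simpa using this

theorem ev_lt (u : Nd) : ∀ᶠ w in F, Lt u w :=
  ev_iff.2 ⟨fun _ => u, fun _ hw => hw 0⟩

theorem freq_mem (m : Vx) : ∃ᶠ w in F, mem w = m := by
  intro h
  obtain ⟨β, hβ⟩ := ev_iff.1 h
  exact hβ (Nd.mk β m) (fun n => Relation.TransGen.single ⟨β, m, n, rfl, rfl⟩) rfl

theorem freq_lt {P : Nd → Prop} (h : ∃ᶠ w in F, P w) (u : Nd) : ∃ w, Lt u w ∧ P w := by
  obtain ⟨w, h1, h2⟩ := (h.and_eventually (ev_lt u)).exists
  exact ⟨w, h2, h1⟩

/-! ### The filter of almost all blocks -/

/-- put an object in front of a sequence -/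
def cons (w : Nd) (f : ℕ → Nd) : ℕ → Nd
  | 0 => w
  | i + 1 => f i

/-- almost all blocks of length `n` -/
def BF : ℕ → Filter (ℕ → Nd)
  | 0 => pure (fun _ => Nd.leaf)
  | n + 1 => F.bind (fun w => (BF n).map (cons w))

theorem ev_succ {n : ℕ} {P : (ℕ → Nd) → Prop} :
    (∀ᶠ X in BF (n + 1), P X) ↔ ∀ᶠ w in F, ∀ᶠ X in BF n, P (cons w X) := by
  simp only [BF, Filter.eventually_bind, Filter.eventually_map]

theorem freq_succ {n : ℕ} {P : (ℕ → Nd) → Prop} :
    (∃ᶠ X in BF (n + 1), P X) ↔ ∃ᶠ w in F, ∃ᶠ X in BF n, P (cons w X) := by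
  simp only [Filter.Frequently, ev_succ, not_not]

theorem evB_countable (n : ℕ) : ∀ {P : ℕ → (ℕ → Nd) → Prop},
    (∀ i, ∀ᶠ X in BF n, P i X) → ∀ᶠ X in BF n, ∀ i, P i X := by
  induction n with
  | zero =>
    intro P h
    simp only [BF, Filter.eventually_pure] at h ⊢
    exact h
  | succ n ih =>
    intro P h
    rw [ev_succ]
    have h1 : ∀ᶠ w in F, ∀ i, ∀ᶠ X in BF n, P i (cons w X) :=
      ev_countable (fun i => ev_succ.1 (h i))
    exact h1.mono (fun w hw => ih hw)

theorem freq_true (n : ℕ) : ∃ᶠ _X in BF n, True := by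
  induction n with
  | zero =>
    intro h
    simp [BF] at h
  | succ n ih =>
    rw [freq_succ]
    intro h
    obtain ⟨β, hβ⟩ := ev_iff.1 h
    exact hβ (Nd.mk β (fun _ _ => Nd.leaf))
      (fun n => Relation.TransGen.single ⟨β, _, n, rfl, rfl⟩) ih

theorem freqB_mem (n : ℕ) (m : Vx) : ∃ᶠ X in BF (n + 1), mem (X 0) = m := by
  rw [freq_succ]
  apply (freq_mem m).mono
  intro w hw
  exact (freq_true n).mono (fun X _ => hw)

/-! ### Interleaving -/

/-- increasing on the first `N` entries -/
def Inc (N : ℕ) (X : ℕ → Nd) : Prop := ∀ j, j + 1 < N → Lt (X j) (X (j + 1))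

theorem Inc.lt {N : ℕ} {X : ℕ → Nd} (h : Inc N X) : ∀ {i j : ℕ}, i < j → j < N → Lt (X i) (X j) := by
  intro i j hij
  induction j with
  | zero => omega
  | succ j ih =>
    intro hj
    rcases Nat.lt_succ_iff_lt_or_eq.1 hij with h1 | h1
    · exact lt_trans (ih h1 (by omega)) (h j hj)
    · subst h1
      exact h i hj

/-- the interleaving relation with shift `s` on blocks of length `N` -/
structure Sp (s N : ℕ) (X Y : ℕ → Nd) : Prop where
  incX : Inc N X
  incY : Inc N Y
  low : ∀ j, j + s < N → Lt (X (j + s)) (Y j)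
  upp : ∀ j, j + s + 1 < N → Lt (Y j) (X (j + s + 1))

/-- a prefix of length `m` followed by another sequence -/
def app (m : ℕ) (P X : ℕ → Nd) : ℕ → Nd := fun i => if i < m then P i else X (i - m)

theorem phase (m : ℕ) : ∀ (n : ℕ) (D : (ℕ → Nd) → Prop) (u : Nd), (∃ᶠ X in BF (m + n), D X) →
    ∃ P : ℕ → Nd, (0 < m → Lt u (P 0)) ∧ Inc m P ∧ ∃ᶠ X in BF n, D (app m P X) := by
  induction m with
  | zero =>
    intro n D u h
    refine ⟨fun _ => u, by omega, fun j hj => by omega, ?_⟩
    rw [Nat.zero_add] at h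
    refine h.mono (fun X hX => ?_)
    have : app 0 (fun _ => u) X = X := by
      funext i
      simp [app]
    rw [this]
    exact hX
  | succ m ih =>
    intro n D u h
    have e : m + 1 + n = (m + n) + 1 := by omega
    rw [e, freq_succ] at h
    obtain ⟨w, hw1, hw2⟩ := freq_lt h u
    obtain ⟨P, hP1, hP2, hP3⟩ := ih n (fun X => D (cons w X)) w hw2
    refine ⟨cons w P, fun _ => hw1, ?_, ?_⟩
    · intro j hj
      cases j with
      | zero => exact hP1 (by omega)
      | succ j => exact hP2 j (by omega)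
    · refine hP3.mono (fun X hX => ?_)
      have : app (m + 1) (cons w P) X = cons w (app m P X) := by
        funext i
        cases i with
        | zero => simp [app, cons]
        | succ i => simp [app, cons]
      rw [this]
      exact hX

theorem alt (r : ℕ) (n : ℕ) : ∀ (D₁ D₂ : (ℕ → Nd) → Prop) (u : Nd), (∃ᶠ X in BF n, D₁ X) →
    (∃ᶠ Y in BF (n + r), D₂ Y) →
    ∃ X Y, D₁ X ∧ D₂ Y ∧ (0 < n + r → Lt u (Y 0)) ∧ Inc (n + r) Y ∧ (∀ j, j < n → Lt (Y j) (X j)) ∧
      (∀ j, j < n → j + 1 < n + r → Lt (X j) (Y (j + 1))) := by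
  induction n with
  | zero =>
    intro D₁ D₂ u h1 h2
    obtain ⟨X, hX⟩ := h1.exists
    obtain ⟨P, hP1, hP2, hP3⟩ := phase r 0 D₂ u (by simpa using h2)
    obtain ⟨Z, hZ⟩ := hP3.exists
    refine ⟨X, app r P Z, hX, hZ, ?_, ?_, fun j hj => by omega, fun j hj => by omega⟩
    · intro hr
      have hr' : 0 < r := by omega
      simp only [app, hr', if_true]
      exact hP1 hr'
    · intro j hj
      have a1 : j < r := by omega
      have a2 : j + 1 < r := by omega
      simp only [app, a1, a2, if_true]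
      exact hP2 j a2
  | succ n ih =>
    intro D₁ D₂ u h1 h2
    have e : n + 1 + r = (n + r) + 1 := by omega
    rw [e, freq_succ] at h2
    rw [freq_succ] at h1
    obtain ⟨w, hw1, hw2⟩ := freq_lt h2 u
    obtain ⟨v, hv1, hv2⟩ := freq_lt h1 w
    obtain ⟨X, Y, hX, hY, g1, g2, g3, g4⟩ := ih _ _ v hv2 hw2
    refine ⟨cons v X, cons w Y, hX, hY, fun _ => hw1, ?_, ?_, ?_⟩
    · intro j hj
      cases j with
      | zero => exact lt_trans hv1 (g1 (by omega))
      | succ j => exact g2 j (by omega)
    · intro j hj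
      cases j with
      | zero => exact hv1
      | succ j => exact g3 j (by omega)
    · intro j hj hj'
      cases j with
      | zero => exact g1 (by omega)
      | succ j => exact g4 j (by omega) (by omega)

theorem exists_sp (s n : ℕ) (D₁ D₂ : (ℕ → Nd) → Prop) (h1 : ∃ᶠ X in BF (n + (s + 1)), D₁ X)
    (h2 : ∃ᶠ Y in BF (n + (s + 1)), D₂ Y) :
    ∃ X Y, D₁ X ∧ D₂ Y ∧ Sp s (n + (s + 1)) X Y := by
  have e : n + (s + 1) = (s + 1) + n := by omega
  rw [e] at h1
  obtain ⟨P, hP1, hP2, hP3⟩ := phase (s + 1) n D₁ Nd.leaf h1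
  obtain ⟨X, Y, hX, hY, g1, g2, g3, g4⟩ := alt (s + 1) n _ D₂ (P s) hP3 h2
  have a1 : ∀ i, i < s + 1 → app (s + 1) P X i = P i := by
    intro i hi
    simp [app, hi]
  have a2 : ∀ i, app (s + 1) P X (i + (s + 1)) = X i := by
    intro i
    have h : ¬ (i + (s + 1) < s + 1) := by omega
    simp only [app, h, if_false]
    congr 1
    omega
  refine ⟨app (s + 1) P X, Y, hX, hY, ?_, g2, ?_, ?_⟩
  · intro j hj
    rcases Nat.lt_trichotomy j s with h | h | h
    · rw [a1 j (by omega), a1 (j + 1) (by omega)]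
      exact hP2 j (by omega)
    · subst h
      have := a2 0
      rw [Nat.zero_add] at this
      rw [a1 j (by omega), this]
      exact lt_trans (g1 (by omega)) (g3 0 (by omega))
    · obtain ⟨i, rfl⟩ : ∃ i, j = i + (s + 1) := ⟨j - (s + 1), by omega⟩
      have h3 := a2 (i + 1)
      have e3 : i + 1 + (s + 1) = i + (s + 1) + 1 := by omega
      rw [e3] at h3
      rw [a2 i, h3]
      exact lt_trans (g4 i (by omega) (by omega)) (g3 (i + 1) (by omega))
  · intro j hj
    cases j with
    | zero =>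
      rw [Nat.zero_add, a1 s (by omega)]
      exact g1 (by omega)
    | succ j =>
      have e3 : j + 1 + s = j + (s + 1) := by omega
      rw [e3, a2 j]
      exact g4 j (by omega) (by omega)
  · intro j hj
    have e3 : j + s + 1 = j + (s + 1) := by omega
    rw [e3, a2 j]
    exact g3 j (by omega)

/-! ### The fusion argument -/

/-- `Q N m a D p`: for almost all continuations of `p` by the blocks `a, …, a + m - 1` the property
`D` fails -/
def Q (N : ℕ → ℕ) (D : Vx → Prop) : ℕ → ℕ → Vx → Prop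
  | 0, _, p => ¬ D p
  | m + 1, a, p => ∀ᶠ X in BF (N a), Q N D m (a + 1) (Function.update p a X)

theorem pair (s n : ℕ → ℕ) (m : ℕ) : ∀ (a : ℕ) (D₁ D₂ : Vx → Prop) (p q : Vx),
    ¬ Q (fun j => n j + (s j + 1)) D₁ m a p → ¬ Q (fun j => n j + (s j + 1)) D₂ m a q →
    ∃ p' q', D₁ p' ∧ D₂ q' ∧ (∀ j, j < a → p' j = p j ∧ q' j = q j) ∧
      ∀ j, a ≤ j → j < a + m → Sp (s j) (n j + (s j + 1)) (p' j) (q' j) := by
  induction m with
  | zero =>
    intro a D₁ D₂ p q h1 h2
    exact ⟨p, q, not_not.1 h1, not_not.1 h2, fun j _ => ⟨rfl, rfl⟩, fun j h h' => by omega⟩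
  | succ m ih =>
    intro a D₁ D₂ p q h1 h2
    have h1' : ∃ᶠ X in BF (n a + (s a + 1)),
        ¬ Q (fun j => n j + (s j + 1)) D₁ m (a + 1) (Function.update p a X) := by
      intro h
      apply h1
      exact h.mono (fun X hX => not_not.1 hX)
    have h2' : ∃ᶠ X in BF (n a + (s a + 1)),
        ¬ Q (fun j => n j + (s j + 1)) D₂ m (a + 1) (Function.update q a X) := by
      intro h
      apply h2
      exact h.mono (fun X hX => not_not.1 hX)
    obtain ⟨X, Y, hX, hY, hS⟩ := exists_sp (s a) (n a) _ _ h1' h2'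
    obtain ⟨p', q', g1, g2, g3, g4⟩ := ih (a + 1) D₁ D₂ _ _ hX hY
    refine ⟨p', q', g1, g2, ?_, ?_⟩
    · intro j hj
      have := g3 j (by omega)
      rw [Function.update_of_ne (by omega), Function.update_of_ne (by omega)] at this
      exact this
    · intro j hj hj'
      rcases Nat.eq_or_lt_of_le hj with h | h
      · subst h
        have := g3 a (by omega)
        rw [Function.update_self, Function.update_self] at this
        rw [this.1, this.2]
        exact hS
      · exact g4 j (by omega) (by omega)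

/-- the arcs of label `k` -/
def Arc (s N : ℕ → ℕ) (k : ℕ) (x y : Vx) : Prop :=
  (∀ j, j ≤ k → Sp (s j) (N j) (x j) (y j)) ∧ mem (y (k + 1) 0) = x

/-- a partial vertex with the blocks `0, …, k` is dangerous for the colour `k` -/
def Dan (c : Vx → ℕ) (k : ℕ) (p : Vx) : Prop :=
  ∀ m : Vx, ∃ y : Vx, (∀ j, j ≤ k → y j = p j) ∧ mem (y (k + 1) 0) = m ∧ c y = k

theorem no_coloring (s n : ℕ → ℕ) (c : Vx → ℕ) :
    ∃ k x y, Arc s (fun j => n j + (s j + 1)) k x y ∧ c x = c y := by
  classical
  by_contra hcon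
  push Not at hcon
  set N : ℕ → ℕ := fun j => n j + (s j + 1) with hN
  -- the dangerous sequences are negligible
  have hQ : ∀ k, Q N (Dan c k) (k + 1) 0 (fun _ _ => Nd.leaf) := by
    intro k
    by_contra hk
    obtain ⟨p, q, hp, hq, -, hS⟩ := pair s n (k + 1) 0 _ _ _ _ hk hk
    obtain ⟨x, hx1, -, hx3⟩ := hp (fun _ _ => Nd.leaf)
    obtain ⟨y, hy1, hy2, hy3⟩ := hq x
    apply hcon k x y
    · refine ⟨fun j hj => ?_, hy2⟩
      rw [hx1 j hj, hy1 j hj]
      exact hS j (by omega) (by omega)
    · rw [hx3, hy3]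
  -- the witness of harmlessness
  let wit : ℕ → Vx → Vx := fun n P => match n with
    | 0 => P
    | k + 1 => if h : ∃ m : Vx, ∀ y : Vx, (∀ j, j ≤ k → y j = P j) → mem (y (k + 1) 0) = m → c y ≠ k
        then h.choose else P
  have hwit : ∀ k P, ¬ Dan c k P → ∀ y : Vx, (∀ j, j ≤ k → y j = P j) →
      mem (y (k + 1) 0) = wit (k + 1) P → c y ≠ k := by
    intro k P hP
    have h : ∃ m : Vx, ∀ y : Vx, (∀ j, j ≤ k → y j = P j) → mem (y (k + 1) 0) = m → c y ≠ k := by
      unfold Dan at hP
      push Not at hP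
      exact hP
    have e : wit (k + 1) P = h.choose := by
      simp only [wit]
      rw [dif_pos h]
    rw [e]
    exact h.choose_spec
  let Inv : ℕ → Vx → Prop := fun n P => ∀ k, n ≤ k + 1 → Q N (Dan c k) (k + 1 - n) n P
  have step : ∀ n P, Inv n P → ∃ X : ℕ → Nd, Inv (n + 1) (Function.update P n X) ∧
      mem (X 0) = wit n P := by
    intro i P hP
    have h1 : ∀ k, ∀ᶠ X in BF (N i), i + 1 ≤ k + 1 →
        Q N (Dan c k) (k + 1 - (i + 1)) (i + 1) (Function.update P i X) := by
      intro k
      by_cases hk : i + 1 ≤ k + 1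
      · have h2 := hP k (by omega)
        have e : k + 1 - i = (k + 1 - (i + 1)) + 1 := by omega
        rw [e] at h2
        exact h2.mono (fun X hX _ => hX)
      · exact Filter.Eventually.of_forall (fun X h => absurd h hk)
    have h2 : ∀ᶠ X in BF (N i), Inv (i + 1) (Function.update P i X) := evB_countable _ h1
    have h3 : ∃ᶠ X in BF (N i), mem (X 0) = wit i P := by
      have e : N i = (n i + s i) + 1 := by simp only [hN]; omega
      rw [e]
      exact freqB_mem _ _
    obtain ⟨X, hX1, hX2⟩ := (h3.and_eventually h2).exists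
    exact ⟨X, hX2, hX1⟩
  choose! nx hnx using step
  let P : ℕ → Vx := fun i => Nat.rec (fun _ _ => Nd.leaf) (fun i P => Function.update P i (nx i P)) i
  have hP0 : P 0 = fun _ _ => Nd.leaf := rfl
  have hPs : ∀ i, P (i + 1) = Function.update (P i) i (nx i (P i)) := fun i => rfl
  have hInv : ∀ i, Inv i (P i) := by
    intro i
    induction i with
    | zero =>
      intro k _
      exact hQ k
    | succ i ih =>
      rw [hPs]
      exact (hnx i (P i) ih).1
  let y : Vx := fun j => P (j + 1) j
  have hy : ∀ i j, j < i → P i j = y j := by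
    intro i
    induction i with
    | zero => intro j hj; omega
    | succ i ih =>
      intro j hj
      rcases Nat.lt_succ_iff_lt_or_eq.1 hj with h | h
      · rw [hPs, Function.update_of_ne (by omega)]
        exact ih j h
      · subst h
        rfl
  have hfin : ∀ k, c y ≠ k := by
    intro k
    have h1 : ¬ Dan c k (P (k + 1)) := by
      have := hInv (k + 1) k le_rfl
      rw [Nat.sub_self] at this
      exact this
    apply hwit k (P (k + 1)) h1 y
    · intro j hj
      exact (hy (k + 1) j (by omega)).symm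
    · have e : y (k + 1) = nx (k + 1) (P (k + 1)) := by
        show P (k + 1 + 1) (k + 1) = _
        rw [hPs (k + 1), Function.update_self]
      rw [e]
      exact (hnx (k + 1) (P (k + 1)) (hInv _)).2
  exact hfin (c y) rfl

/-! ### The graph -/

theorem Arc.lt {s N : ℕ → ℕ} (hN : s 0 < N 0) {k : ℕ} {x y : Vx} (h : Arc s N k x y) :
    Lt (x 0 0) (y 0 0) := by
  have h0 := h.1 0 (Nat.zero_le _)
  have h1 := h0.low 0 (by omega)
  rw [Nat.zero_add] at h1
  rcases Nat.eq_zero_or_pos (s 0) with h2 | h2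
  · rw [h2] at h1
    exact h1
  · exact lt_trans (h0.incX.lt h2 hN) h1

/-- the graph -/
def GG (s N : ℕ → ℕ) (hN : s 0 < N 0) : SimpleGraph Vx where
  Adj x y := ∃ k, Arc s N k x y ∨ Arc s N k y x
  symm := ⟨fun _ _ ⟨k, h⟩ => ⟨k, h.symm⟩⟩
  loopless := ⟨fun x ⟨k, h⟩ => by
    have h1 : ¬ Arc s N k x x := fun h => lt_irrefl _ (h.lt hN)
    tauto⟩

open Cardinal in
/-- a colour set of size `ℵ₁` -/
abbrev W : Type := (ℵ₁).ord.ToType

open Cardinal in
theorem exists_coloring (s N : ℕ → ℕ) (hN : s 0 < N 0) : Nonempty ((GG s N hN).Coloring W) := by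
  classical
  have key : ∀ A : Set W, A.Countable → ∃ a, a ∉ A := by
    intro A hA
    by_contra hcon
    push Not at hcon
    have h1 : A = Set.univ := Set.eq_univ_of_forall hcon
    rw [h1, Set.countable_univ_iff] at hA
    have h2 : #W ≤ ℵ₀ := Cardinal.mk_le_aleph0_iff.2 hA
    have h3 : #W = ℵ₁ := by simp [W]
    rw [h3] at h2
    exact absurd h2 (not_le.2 Cardinal.aleph0_lt_aleph_one)
  choose pk hpk using key
  let R : Vx → Vx → Prop := fun x y => ∃ k, Arc s N k x y
  have hR : WellFounded R := by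
    apply Subrelation.wf (r := InvImage Lt (fun x : Vx => x 0 0))
    · rintro x x' ⟨k, h⟩
      exact h.lt hN
    · exact InvImage.wf _ lt_wf
  have hcount : ∀ y, {x | R x y}.Countable := by
    intro y
    apply Set.Countable.mono (s₂ := Set.range (fun k : ℕ => mem (y (k + 1) 0)))
    · rintro x ⟨k, h⟩
      exact ⟨k, h.2⟩
    · exact Set.countable_range _
  let f : (x' : Vx) → ((x : Vx) → R x x' → W) → W :=
    fun x' f => pk (Set.range (fun x : {x // R x x'} => f x.1 x.2)) (by
      have : Countable {x // R x x'} := (hcount x').to_subtype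
      exact Set.countable_range _)
  let col : Vx → W := hR.fix f
  have hcol : ∀ x x', R x x' → col x ≠ col x' := by
    intro x x' h heq
    have h1 : col x' = f x' (fun y _ => col y) := hR.fix_eq f x'
    have h2 := hpk (Set.range (fun y : {y // R y x'} => col y.1)) (by
      have : Countable {x // R x x'} := (hcount x').to_subtype
      exact Set.countable_range _)
    apply h2
    refine ⟨⟨x, h⟩, ?_⟩
    exact heq.trans h1
  refine ⟨SimpleGraph.Coloring.mk col ?_⟩
  intro x y h
  rcases h with ⟨k, h | h⟩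
  · exact hcol x y ⟨k, h⟩
  · exact (hcol y x ⟨k, h⟩).symm

/-! ### No short odd closed walks -/

/-- weak order -/
def Le (u v : Nd) : Prop := u = v ∨ Lt u v

theorem Le.trans {u v w : Nd} (h1 : Le u v) (h2 : Le v w) : Le u w := by
  rcases h1 with rfl | h1
  · exact h2
  · rcases h2 with rfl | h2
    · exact Or.inr h1
    · exact Or.inr (lt_trans h1 h2)

theorem Inc.le {N : ℕ} {X : ℕ → Nd} (h : Inc N X) {i j : ℕ} (hij : i ≤ j) (hj : j < N) :
    Le (X i) (X j) := by
  rcases Nat.eq_or_lt_of_le hij with h1 | h1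
  · subst h1; exact Or.inl rfl
  · exact Or.inr (h.lt h1 hj)

/-- one step of a walk -/
theorem step_le {s N : ℕ} {X Y : ℕ → Nd} (h : Sp s N X Y ∨ Sp s N Y X) :
    ∃ ε : ℤ, (ε = 1 ∨ ε = -1) ∧ ∀ i : ℤ, 0 ≤ i - (s + 1) → i + (s + 1) < N →
      Le (X (i + s * ε - 1).toNat) (Y i.toNat) ∧ Le (Y i.toNat) (X (i + s * ε + 1).toNat) := by
  rcases h with h | h
  · refine ⟨1, Or.inl rfl, fun i h1 h2 => ⟨?_, ?_⟩⟩
    · have e1 : (i + s * 1 - 1).toNat ≤ i.toNat + s := by omega
      have e2 : i.toNat + s < N := by omega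
      exact (h.incX.le e1 e2).trans (Or.inr (h.low _ e2))
    · have e1 : (i + s * 1 + 1).toNat = i.toNat + s + 1 := by omega
      rw [e1]
      exact Or.inr (h.upp _ (by omega))
  · refine ⟨-1, Or.inr rfl, fun i h1 h2 => ⟨?_, ?_⟩⟩
    · have e1 : i.toNat = (i + s * (-1) - 1).toNat + s + 1 := by omega
      have e2 := h.upp (i + s * (-1) - 1).toNat (by omega)
      rw [← e1] at e2
      exact Or.inr e2
    · have e1 : i.toNat = (i + s * (-1)).toNat + s := by omega
      have e2 := h.low (i + s * (-1)).toNat (by omega)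
      rw [← e1] at e2
      exact Le.trans (Or.inr e2) (h.incY.le (by omega) (by omega))

theorem walk_le {α : Type} {H : SimpleGraph α} {s N : ℕ} {φ : α → ℕ → Nd}
    (hH : ∀ a b, H.Adj a b → Sp s N (φ a) (φ b) ∨ Sp s N (φ b) (φ a)) {a b : α} (p : H.Walk a b) :
    ∃ t : ℤ, t ≤ p.length ∧ -(p.length : ℤ) ≤ t ∧ (2 : ℤ) ∣ t - p.length ∧
      ∀ i : ℤ, 0 ≤ i - (s + 1) * p.length → i + (s + 1) * p.length < N →
        Le (φ a (i + s * t - p.length).toNat) (φ b i.toNat) ∧
        Le (φ b i.toNat) (φ a (i + s * t + p.length).toNat) := by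
  induction p with
  | nil =>
    refine ⟨0, by simp, by simp, by simp, fun i _ _ => ⟨?_, ?_⟩⟩
    · left; simp
    · left; simp
  | @cons a b c h p ih =>
    obtain ⟨t, ht1, ht2, ht3, ht4⟩ := ih
    obtain ⟨ε, hε, hs⟩ := step_le (hH a b h)
    have hlen : ((SimpleGraph.Walk.cons h p).length : ℤ) = p.length + 1 := by simp
    have hs0 : (0 : ℤ) ≤ s := Int.natCast_nonneg _
    have hst1 : (s : ℤ) * t ≤ s * p.length := mul_le_mul_of_nonneg_left ht1 hs0
    have hst2 : -((s : ℤ) * p.length) ≤ s * t := by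
      have := mul_le_mul_of_nonneg_left ht2 hs0
      linarith
    refine ⟨t + ε, by rw [hlen]; omega, by rw [hlen]; omega, by rw [hlen]; omega, ?_⟩
    intro i hi1 hi2
    rw [hlen] at hi1 hi2 ⊢
    have e0 : (s + 1 : ℤ) * (p.length + 1) = s * p.length + p.length + s + 1 := by ring
    have e0' : (s + 1 : ℤ) * p.length = s * p.length + p.length := by ring
    rw [e0] at hi1 hi2
    obtain ⟨g1, g2⟩ := ht4 i (by rw [e0']; omega) (by rw [e0']; omega)
    obtain ⟨k1, -⟩ := hs (i + s * t - p.length) (by omega) (by omega)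
    obtain ⟨-, k2⟩ := hs (i + s * t + p.length) (by omega) (by omega)
    have e1 : i + s * (t + ε) - (p.length + 1) = i + s * t - p.length + s * ε - 1 := by ring
    have e2 : i + s * (t + ε) + (p.length + 1) = i + s * t + p.length + s * ε + 1 := by ring
    rw [e1, e2]
    exact ⟨k1.trans g1, g2.trans k2⟩

theorem even_of_closed {α : Type} {H : SimpleGraph α} {s N : ℕ} {φ : α → ℕ → Nd}
    (hH : ∀ a b, H.Adj a b → Sp s N (φ a) (φ b) ∨ Sp s N (φ b) (φ a))
    (hN : 2 * ((s + 1) * s) < N) {a : α} (p : H.Walk a a) (hp : p.length < s) :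
    Even p.length := by
  obtain ⟨t, ht1, ht2, ht3, ht4⟩ := walk_le hH p
  have hs0 : (0 : ℤ) ≤ s := Int.natCast_nonneg _
  have hst1 : (s : ℤ) * t ≤ s * p.length := mul_le_mul_of_nonneg_left ht1 hs0
  have hst2 : -((s : ℤ) * p.length) ≤ s * t := by
    have := mul_le_mul_of_nonneg_left ht2 hs0
    linarith
  -- the middle of the block
  set M : ℕ := (s + 1) * s with hM
  have hM1 : ((s : ℤ) + 1) * p.length ≤ M := by
    rw [hM]
    push_cast
    have : (p.length : ℤ) ≤ s := by exact_mod_cast hp.le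
    exact mul_le_mul_of_nonneg_left this (by omega)
  have e0' : (s + 1 : ℤ) * p.length = s * p.length + p.length := by ring
  rw [e0'] at hM1
  obtain ⟨g1, g2⟩ := ht4 M (by rw [e0']; omega) (by rw [e0']; omega)
  have hinc : 0 < p.length → Inc N (φ a) := by
    intro h0
    cases p with
    | nil => simp at h0
    | cons h p =>
      rcases hH _ _ h with h | h
      · exact h.incX
      · exact h.incY
  rcases Nat.eq_zero_or_pos p.length with h0 | h0
  · rw [h0]; exact Even.zero
  have hI := hinc h0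
  have hle : ∀ i j : ℕ, j < N → i < N → Le (φ a i) (φ a j) → i ≤ j := by
    intro i j hj hi h
    by_contra hcon
    have h1 := hI.lt (not_le.1 hcon) hi
    rcases h with h | h
    · rw [h] at h1
      exact lt_irrefl _ h1
    · exact lt_irrefl _ (lt_trans h h1)
  have k1 := hle _ _ (by omega) (by omega) g1
  have k2 := hle _ _ (by omega) (by omega) g2
  have h3 : (s : ℤ) * t ≤ p.length := by omega
  have h4 : -(p.length : ℤ) ≤ (s : ℤ) * t := by omega
  have ht0 : t = 0 := by
    by_contra hne
    rcases lt_or_gt_of_ne hne with h | h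
    · have : (s : ℤ) * t ≤ s * (-1) := mul_le_mul_of_nonneg_left (by omega) hs0
      omega
    · have : (s : ℤ) * 1 ≤ s * t := mul_le_mul_of_nonneg_left (by omega) hs0
      omega
  rw [ht0] at ht3
  have : Even (p.length : ℤ) := by
    rw [even_iff_two_dvd]
    omega
  exact_mod_cast this

/-- a finite graph without short odd closed walks is bipartite -/
theorem bip {α : Type} [Fintype α] (H : SimpleGraph α)
    (h : ∀ a (p : H.Walk a a), p.length < 2 * Fintype.card α → Even p.length) :
    H.IsBipartite := by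
  classical
  let r : α → α := fun v => (H.connectedComponentMk v).out
  have hr : ∀ v, ∃ n : ℕ, ∃ p : H.Walk (r v) v, p.length = n ∧ n < Fintype.card α := by
    intro v
    have h1 : H.Reachable (r v) v := by
      rw [← SimpleGraph.ConnectedComponent.eq]
      exact Quot.out_eq _
    obtain ⟨p, hp⟩ := h1.exists_isPath
    exact ⟨p.length, p, rfl, hp.length_lt⟩
  choose f hf using hr
  refine ⟨SimpleGraph.Coloring.mk (fun v => (⟨f v % 2, Nat.mod_lt _ (by omega)⟩ : Fin 2)) ?_⟩
  intro u v huv heq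
  have hru : r u = r v := by
    simp only [r]
    rw [SimpleGraph.ConnectedComponent.eq.2 huv.reachable]
  obtain ⟨p, hp1, hp2⟩ := hf u
  have hv := hf v
  rw [← hru] at hv
  obtain ⟨q, hq1, hq2⟩ := hv
  have h1 := h _ (p.append (SimpleGraph.Walk.cons huv q.reverse)) (by
    simp only [SimpleGraph.Walk.length_append, SimpleGraph.Walk.length_cons,
      SimpleGraph.Walk.length_reverse]
    omega)
  simp only [SimpleGraph.Walk.length_append, SimpleGraph.Walk.length_cons,
      SimpleGraph.Walk.length_reverse] at h1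
  have h2 : f u % 2 = f v % 2 := congrArg Fin.val heq
  rw [Nat.even_iff] at h1
  omega

/-- the deficiency of the graph -/
theorem exists_del (s N : ℕ → ℕ) (hN0 : s 0 < N 0) (hN : ∀ k, 2 * ((s k + 1) * s k) < N k) (k : ℕ)
    (S : Finset Vx) (hS : 2 * S.card ≤ s k) :
    ∃ D : Finset (Sym2 Vx), D.card ≤ k * S.card ∧
      (((GG s N hN0).deleteEdges (D : Set (Sym2 _))).induce (S : Set _)).IsBipartite := by
  classical
  let D : Finset (Sym2 Vx) := (S ×ˢ Finset.range k).image (fun p => s(mem (p.1 (p.2 + 1) 0), p.1))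
  refine ⟨D, ?_, ?_⟩
  · refine Finset.card_image_le.trans ?_
    rw [Finset.card_product, Finset.card_range, mul_comm]
  · apply bip
    intro a p hp
    apply even_of_closed (s := s k) (N := N k) (φ := fun x => x.1 k) ?_ (hN k) p
    · have : Fintype.card ((S : Set Vx)) = S.card := by simp
      rw [this] at hp
      omega
    · rintro ⟨x, hx⟩ ⟨y, hy⟩ hadj
      have hadj' : ((GG s N hN0).deleteEdges (D : Set (Sym2 _))).Adj x y := hadj
      rw [SimpleGraph.deleteEdges_adj] at hadj'
      obtain ⟨⟨j, ha⟩, hn⟩ := hadj'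
      have hj : k ≤ j := by
        by_contra hcon
        apply hn
        rw [Finset.mem_coe]
        rcases ha with ha | ha
        · refine Finset.mem_image.2 ⟨(y, j), ?_, ?_⟩
          · exact Finset.mem_product.2 ⟨hy, Finset.mem_range.2 (by omega)⟩
          · show s(mem (y (j + 1) 0), y) = s(x, y)
            rw [ha.2]
        · refine Finset.mem_image.2 ⟨(x, j), ?_, ?_⟩
          · exact Finset.mem_product.2 ⟨hx, Finset.mem_range.2 (by omega)⟩
          · show s(mem (x (j + 1) 0), x) = s(x, y)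
            rw [ha.2, Sym2.eq_swap]
      rcases ha with ha | ha
      · exact Or.inl (ha.1 k hj)
      · exact Or.inr (ha.1 k hj)

end Pool.Agent.Y581.BD
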